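import Pool.Agent.H19.FI.Group

/-!
# Construction of rational subgroups of order five
-/

namespace Pool.Agent.H19.FI

open WeierstrassCurve WeierstrassCurve.Affine

open scoped Classical

variable {x y : ℤ}

lemma f_ne_zero {α β : QQ} (hk : (y : ℤ) ^ 2 ≠ x ^ 3)
    (h1 : 4 * β * (α ^ 3 - 3 * x * α + 2 * y) = α ^ 4 + 6 * x * α ^ 2 - 16 * y * α + 9 * x ^ 2) :
    α ^ 3 - 3 * x * α + 2 * y ≠ 0 := by
  intro h0
  have h2 : (3 * α ^ 2 - 3 * x) ^ 2 = 0 := by
    linear_combination (8 * α + 4 * β) * h0 - h1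
  have h3 : α ^ 2 = x := by
    have h4 := pow_eq_zero_iff (two_ne_zero) |>.mp h2
    linear_combination (1 / 3 : QQ) * h4
  have h5 : (y : QQ) = α ^ 3 := by
    rw [← h3] at h0
    linear_combination (1 / 2 : QQ) * h0
  apply hk
  have h6 : ((y : QQ)) ^ 2 = (x : QQ) ^ 3 := by
    rw [h5, ← h3]; ring
  exact_mod_cast h6

lemma nonsing {α γ : QQ} (hE : γ ^ 2 = α ^ 3 - 3 * x * α + 2 * y) (hγ : γ ≠ 0) :
    ((curve x y)⁄QQ).Nonsingular α γ := by
  rw [WeierstrassCurve.Affine.nonsingular_iff]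
  refine ⟨equation_iff'.mpr hE, Or.inr ?_⟩
  simp [curve]
  intro h
  apply hγ
  have : 2 * γ = 0 := by linear_combination h
  simpa using this

lemma exists_double {α β γ : QQ} (hk : (y : ℤ) ^ 2 ≠ x ^ 3)
    (h1 : 4 * β * (α ^ 3 - 3 * x * α + 2 * y) = α ^ 4 + 6 * x * α ^ 2 - 16 * y * α + 9 * x ^ 2)
    (hP : ((curve x y)⁄QQ).Nonsingular α γ) :
    ∃ (δ : QQ) (hQ : ((curve x y)⁄QQ).Nonsingular β δ),
      Affine.Point.some α γ hP + Affine.Point.some α γ hP = Affine.Point.some β δ hQ := by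
  have hf := f_ne_zero hk h1
  have hE := equation_iff'.mp hP.1
  have hγ0 : γ ≠ 0 := by
    rintro rfl
    apply hf
    rw [← hE]; ring
  have hγ : γ ≠ ((curve x y)⁄QQ).negY α γ := by
    intro h
    simp [WeierstrassCurve.Affine.negY, curve] at h
    apply hγ0
    have : 2 * γ = 0 := by linear_combination h
    simpa using this
  have h3 := Affine.Point.add_self_of_Y_ne (h₁ := hP) hγ
  have h4 := double_x hP _ h3
  have h5 : ((curve x y)⁄QQ).addX α α (((curve x y)⁄QQ).slope α α γ γ) = β := by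
    have h6 := h4.trans h1.symm
    have h7 := mul_right_cancel₀ hf h6
    exact mul_left_cancel₀ (by norm_num : (4 : QQ) ≠ 0) h7
  subst h5
  exact ⟨_, _, h3⟩

/-- Criterion for a rational subgroup of order five. -/
lemma hasRationalSubgroup_five {α β : QQ} (hk : (y : ℤ) ^ 2 ≠ x ^ 3) (hne : α ≠ β)
    (h1 : 4 * β * (α ^ 3 - 3 * x * α + 2 * y) = α ^ 4 + 6 * x * α ^ 2 - 16 * y * α + 9 * x ^ 2)
    (h2 : 4 * α * (β ^ 3 - 3 * x * β + 2 * y) = β ^ 4 + 6 * x * β ^ 2 - 16 * y * β + 9 * x ^ 2)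
    (hσ : ∀ σ : QQ ≃ₐ[ℚ] QQ, σ α = α ∨ σ α = β) : HasRationalSubgroup (curve x y) 5 := by
  obtain ⟨γ, hγ⟩ := IsAlgClosed.exists_pow_nat_eq (α ^ 3 - 3 * x * α + 2 * y) (n := 2) (by norm_num)
  have hf := f_ne_zero hk h1
  have hγ0 : γ ≠ 0 := by
    rintro rfl
    apply hf
    rw [← hγ]; ring
  have hP := nonsing hγ hγ0
  obtain ⟨δ, hQ, hPQ⟩ := exists_double hk h1 hP
  obtain ⟨ε, hR, hQR⟩ := exists_double hk h2 hQ
  set P := Affine.Point.some α γ hP with hPdef
  set Q := Affine.Point.some β δ hQ with hQdef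
  set R := Affine.Point.some α ε hR with hRdef
  have hP0 : P ≠ 0 := Affine.Point.some_ne_zero hP
  have hPQne : ¬ (P = Q ∨ P = -Q) := by
    intro h
    exact hne (Affine.Point.X_eq_iff.mpr h)
  have h4 : R = -P := by
    have h5 := (Affine.Point.X_eq_iff (h₁ := hR) (h₂ := hP)).mp rfl
    rcases h5 with h5 | h5
    · exfalso
      apply hPQne
      right
      have h6 : Q + Q = P := hQR.trans h5
      have h7 : P + Q = 0 := by
        have h8 : P + P + (P + P) = P := by rw [hPQ]; exact h6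
        have h9 : P + (P + (P + P)) = P + 0 := by rw [add_zero, ← add_assoc]; exact h8
        have h10 := add_left_cancel h9
        rw [hPQ] at h10
        exact h10
      exact eq_neg_of_add_eq_zero_left h7
    · exact h5
  have h5P : (5 : ℕ) • P = 0 := by
    have : (5 : ℕ) • P = (P + P) + (P + P) + P := by module
    rw [this, hPQ, hQR, h4]; simp
  have hp5 : Fact (Nat.Prime 5) := ⟨by norm_num⟩
  have hord : addOrderOf P = 5 := addOrderOf_eq_prime h5P hP0
  refine ⟨AddSubgroup.zmultiples P, ?_, ?_⟩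
  · rw [Nat.card_zmultiples, hord]
  · intro σ S hS
    rw [AddSubgroup.mem_zmultiples_iff] at hS
    obtain ⟨n, rfl⟩ := hS
    rw [map_zsmul]
    refine AddSubgroup.zsmul_mem _ ?_ n
    obtain ⟨a, b, hab, hmap, ha⟩ : ∃ (a b : QQ) (hab : ((curve x y)⁄QQ).Nonsingular a b),
        Affine.Point.map (W' := curve x y) (σ : QQ →ₐ[ℚ] QQ) P = Affine.Point.some a b hab ∧ a = σ α := by
      rw [hPdef, Affine.Point.map_some]
      exact ⟨_, _, _, rfl, rfl⟩
    have hQmem : Q ∈ AddSubgroup.zmultiples P := by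
      rw [← hPQ]
      exact add_mem (AddSubgroup.mem_zmultiples P) (AddSubgroup.mem_zmultiples P)
    rw [hmap]
    rcases hσ σ with h | h
    · rcases (Affine.Point.X_eq_iff (h₁ := hab) (h₂ := hP)).mp (ha.trans h) with h6 | h6
      · rw [h6]; exact AddSubgroup.mem_zmultiples P
      · rw [h6]; exact neg_mem (AddSubgroup.mem_zmultiples P)
    · rcases (Affine.Point.X_eq_iff (h₁ := hab) (h₂ := hQ)).mp (ha.trans h) with h6 | h6
      · rw [h6]; exact hQmem
      · rw [h6]; exact neg_mem hQmem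

/-- The extremal family. -/
lemma family_member {u z : ℤ} (hu : u ^ 2 + 4 = 5 * z ^ 2) (hx : 20 * x = u ^ 2 - 12 * u + 16)
    (hy : 40 * y = z * (u ^ 2 - 18 * u + 76)) (hk : (y : ℤ) ^ 2 ≠ x ^ 3) :
    HasRationalSubgroup (curve x y) 5 := by
  obtain ⟨r, hr⟩ := IsAlgClosed.exists_pow_nat_eq (5 : QQ) (n := 2) (by norm_num)
  have hr0 : r ≠ 0 := by rintro rfl; norm_num at hr
  have huq : (u : QQ) ^ 2 + 4 = 5 * (z : QQ) ^ 2 := by exact_mod_cast hu
  have hxq : (x : QQ) = (5 * (z : QQ) ^ 2 - 12 * u + 12) / 20 := by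
    have : 20 * (x : QQ) = u ^ 2 - 12 * u + 16 := by exact_mod_cast hx
    linear_combination (1 / 20 : QQ) * this + (1 / 20 : QQ) * huq
  have hyq : (y : QQ) = z * (5 * (z : QQ) ^ 2 - 18 * u + 72) / 40 := by
    have : 40 * (y : QQ) = z * (u ^ 2 - 18 * u + 76) := by exact_mod_cast hy
    linear_combination (1 / 40 : QQ) * this + (1 / 40 : QQ) * z * huq
  refine hasRationalSubgroup_five (α := (z : QQ) / 2 + 3 * r / 5) (β := (z : QQ) / 2 - 3 * r / 5) hk ?_ ?_ ?_ ?_
  · intro h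
    apply hr0
    linear_combination (5 / 6 : QQ) * h
  · rw [hxq, hyq]
    linear_combination ((-81 / 125) * r ^ 2 + (-162 / 125) * r * z + (-162 / 125) * u + (-243 / 125)) * hr
      + (-81 / 25) * huq
  · rw [hxq, hyq]
    linear_combination ((-81 / 125) * r ^ 2 + (162 / 125) * r * z + (-162 / 125) * u + (-243 / 125)) * hr
      + (-81 / 25) * huq
  · intro σ
    have h5 : (σ r) ^ 2 = r ^ 2 := by
      rw [← map_pow, hr, map_ofNat]
    rcases sq_eq_sq_iff_eq_or_eq_neg.mp h5 with h6 | h6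
    · left
      rw [map_add, map_div₀, map_div₀, map_mul, h6, map_intCast, map_ofNat, map_ofNat, map_ofNat]
    · right
      rw [map_add, map_div₀, map_div₀, map_mul, h6, map_intCast, map_ofNat, map_ofNat, map_ofNat]
      ring

end Pool.Agent.H19.FI
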