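import Pool.Agent.H19.FI.Conv

/-!
# The extremal family in the class
-/

namespace Pool.Agent.H19.FI

/-- The Pell equation. -/
lemma pell (n : ℕ) : ∃ v z : ℤ, v ^ 2 + 4 = 5 * z ^ 2 ∧ 0 < z ∧ 1364 ≤ v ∧ (n : ℤ) ≤ v ∧
    (250 : ℤ) ∣ v - 1364 ∧ (10 : ℤ) ∣ z := by
  induction n with
  | zero => exact ⟨1364, 610, by norm_num, by norm_num, by norm_num, by norm_num, by norm_num, by norm_num⟩
  | succ n ih =>
    obtain ⟨v, z, h1, h2, h3, h4, ⟨a, ha⟩, ⟨b, hb⟩⟩ := ih
    refine ⟨248463202891873338196895718441234115449033744761017349760100001 * v +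
      5 * 111116122314710222764869946730954983603333469548249882495489800 * z,
      248463202891873338196895718441234115449033744761017349760100001 * z +
      111116122314710222764869946730954983603333469548249882495489800 * v, ?_, ?_, ?_, ?_, ?_, ?_⟩
    · linear_combination (248463202891873338196895718441234115449033744761017349760100001 ^ 2 -
        5 * 111116122314710222764869946730954983603333469548249882495489800 ^ 2 : ℤ) * h1
    · positivity
    · nlinarith
    · push_cast
      nlinarith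
    · refine ⟨248463202891873338196895718441234115449033744761017349760100001 * a +
        248463202891873338196895718441234115449033744761017349760100000 / 250 * 1364 +
        5 * 111116122314710222764869946730954983603333469548249882495489800 / 250 * z, ?_⟩
      have : v = 250 * a + 1364 := by linarith
      rw [this]
      norm_num
      ring
    · refine ⟨248463202891873338196895718441234115449033744761017349760100001 * b +
        11111612231471022276486994673095498360333346954824988249548980 * v, ?_⟩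
      rw [hb]; ring

/-- Infinitely many members of the class with `max(|x|, |y|) > |k|³`. -/
lemma family (N : ℤ) : ∃ x y k : ℤ, N ≤ |x| ∧ k ≠ 0 ∧ y ^ 2 = x ^ 3 + k ∧
    HasRationalSubgroup (curve x y) 5 ∧ |k| ^ 3 < max |x| |y| := by
  obtain ⟨v, z, h1, h2, h3, h4, ⟨j, hj⟩, ⟨z1, hz1⟩⟩ := pell N.toNat
  have hN : N ≤ v := (Int.self_le_toNat N).trans h4
  have hv : v = 250 * j + 1364 := by linarith
  set m : ℤ := 25 * j + 136 with hm
  have hvm : v = 10 * m + 4 := by rw [hv, hm]; ring
  set x : ℤ := 5 * m ^ 2 + 10 * m + 4 with hx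
  set y : ℤ := z1 * (25 * m ^ 2 + 65 * m + 41) with hy
  set k : ℤ := 27 * (2 * j + 11) with hk
  have hx20 : 20 * x = v ^ 2 + 12 * v + 16 := by rw [hx, hvm]; ring
  have hy40 : 40 * y = z * (v ^ 2 + 18 * v + 76) := by rw [hy, hvm, hz1]; ring
  have hk125 : 125 * k = 27 * (v + 11) := by rw [hk, hv]; ring
  have hkpos : 0 < k := by linarith
  have hzpos : 0 < z := h2
  have hxpos : 0 < x := by nlinarith
  have hypos : 0 < y := by
    have : 0 < z * (v ^ 2 + 18 * v + 76) := by positivity
    linarith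
  have heq : y ^ 2 = x ^ 3 + k := by
    have h5 : 8000 * (y ^ 2 - x ^ 3) = 8000 * k := by
      have e1 : (40 * y) ^ 2 = (z * (v ^ 2 + 18 * v + 76)) ^ 2 := by rw [hy40]
      have e2 : (20 * x) ^ 3 = (v ^ 2 + 12 * v + 16) ^ 3 := by rw [hx20]
      linear_combination 5 * e1 - e2 - (v ^ 2 + 18 * v + 76) ^ 2 * h1 - 64 * hk125
    linarith
  refine ⟨x, y, k, ?_, hkpos.ne', heq, ?_, ?_⟩
  · rw [abs_of_pos hxpos]
    nlinarith
  · refine family_member (u := -v) (z := z) ?_ ?_ ?_ ?_
    · linarith
    · linarith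
    · rw [hy40]; ring
    · intro h; rw [heq] at h; apply hkpos.ne'; linarith
  · rw [abs_of_pos hkpos, abs_of_pos hxpos, abs_of_pos hypos]
    refine lt_of_lt_of_le ?_ (le_max_right _ _)
    have hz : 446 * v ≤ 1000 * z := by
      by_contra hlt
      push Not at hlt
      have : (1000 * z) ^ 2 < (446 * v) ^ 2 := by
        apply pow_lt_pow_left₀ hlt (by positivity) (by norm_num)
      nlinarith
    have h6 : 1000 * (40 * y) ≥ 446 * v * (v ^ 2 + 18 * v + 76) := by
      rw [hy40]
      have : 0 < v ^ 2 + 18 * v + 76 := by positivity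
      nlinarith
    have h7 : (125 * k) ^ 3 = (27 * (v + 11)) ^ 3 := by rw [hk125]
    have h8 : (125 : ℤ) ^ 3 * k ^ 3 = 19683 * (v + 11) ^ 3 := by
      rw [← mul_pow, h7]; ring
    have h9 : 19683 * (v + 11) ^ 3 * 40000 < 125 ^ 3 * (446 * v * (v ^ 2 + 18 * v + 76)) := by
      obtain ⟨w, hw⟩ : ∃ w : ℤ, v = w + 1364 ∧ 0 ≤ w := ⟨v - 1364, by ring, by linarith⟩
      obtain ⟨rfl, hw0⟩ := hw
      have hw2 : 0 ≤ w ^ 2 := sq_nonneg w
      have hw3 : 0 ≤ w ^ 3 := by positivity
      nlinarith
    have h10 : (125 : ℤ) ^ 3 * 40000 * k ^ 3 < 125 ^ 3 * 40000 * y := by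
      calc (125 : ℤ) ^ 3 * 40000 * k ^ 3 = 19683 * (v + 11) ^ 3 * 40000 := by rw [← h8]; ring
        _ < 125 ^ 3 * (446 * v * (v ^ 2 + 18 * v + 76)) := h9
        _ ≤ 125 ^ 3 * (1000 * (40 * y)) := by
          apply mul_le_mul_of_nonneg_left h6 (by norm_num)
        _ = 125 ^ 3 * 40000 * y := by ring
    exact lt_of_mul_lt_mul_left h10 (by norm_num)

end Pool.Agent.H19.FI
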