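import Pool.Agent.H19.FI.Param

/-!
# Rational subgroups of order five
-/

namespace Pool.Agent.H19.FI

open WeierstrassCurve WeierstrassCurve.Affine

open scoped Classical

/-- The curve `Y² = X³ - 3 x X + 2 y` over `ℚ`. -/
def curve (x y : ℤ) : WeierstrassCurve ℚ := ⟨0, 0, 0, -3 * x, 2 * y⟩

/-- The algebraic closure of `ℚ`. -/
abbrev QQ : Type := AlgebraicClosure ℚ

/-- `W` has a rational subgroup of order `n`: a subgroup of order `n` of the group of points of `W` over the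
algebraic closure of `ℚ` which is stable under the Galois group. -/
def HasRationalSubgroup (W : WeierstrassCurve ℚ) (n : ℕ) : Prop :=
  ∃ H : AddSubgroup (W⁄QQ).Point, Nat.card H = n ∧
    ∀ σ : QQ ≃ₐ[ℚ] QQ, ∀ P ∈ H, Affine.Point.map (W' := W) (σ : QQ →ₐ[ℚ] QQ) P ∈ H

lemma isAlgebraic_QQ : Algebra.IsAlgebraic ℚ QQ := by
  refine ⟨fun x => ?_⟩
  obtain ⟨p, hp, hx⟩ := (AlgebraicClosure.isAlgebraic ℚ).isAlgebraic x
  refine ⟨p, hp, ?_⟩
  rw [Polynomial.aeval_def] at hx ⊢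
  rw [← hx]
  congr 1

lemma isGalois_QQ : IsGalois ℚ QQ := by
  have := isAlgebraic_QQ
  have : IsAlgClosure ℚ QQ := ⟨inferInstance, isAlgebraic_QQ⟩
  exact IsAlgClosure.isGalois ℚ QQ

section
variable {x y : ℤ}

lemma equation_iff' {α γ : QQ} : ((curve x y)⁄QQ).Equation α γ ↔ γ ^ 2 = α ^ 3 - 3 * x * α + 2 * y := by
  rw [WeierstrassCurve.Affine.equation_iff]
  simp [curve]
  constructor <;> intro h <;> linear_combination h

lemma double_x {α γ β δ : QQ} (hP : ((curve x y)⁄QQ).Nonsingular α γ)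
    (hQ : ((curve x y)⁄QQ).Nonsingular β δ)
    (h2 : (Affine.Point.some α γ hP) + Affine.Point.some α γ hP = Affine.Point.some β δ hQ) :
    4 * β * (α ^ 3 - 3 * x * α + 2 * y) = α ^ 4 + 6 * x * α ^ 2 - 16 * y * α + 9 * x ^ 2 := by
  have hγ : γ ≠ ((curve x y)⁄QQ).negY α γ := by
    intro h
    rw [Affine.Point.add_self_of_Y_eq h] at h2
    exact Affine.Point.some_ne_zero hQ h2.symm
  have hγ0 : γ ≠ 0 := by
    intro h0
    apply hγ
    simp [WeierstrassCurve.Affine.negY, curve, h0]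
  rw [Affine.Point.add_self_of_Y_ne hγ] at h2
  rw [Affine.Point.some.injEq] at h2
  have h3 := h2.1
  rw [WeierstrassCurve.Affine.slope_of_Y_ne rfl hγ] at h3
  simp [WeierstrassCurve.Affine.addX, WeierstrassCurve.Affine.negY, curve] at h3
  have hE := equation_iff'.mp hP.1
  rw [← hE, ← h3]
  have h4 : γ + γ ≠ 0 := by rw [← two_mul]; exact mul_ne_zero two_ne_zero hγ0
  set m : QQ := (3 * α ^ 2 + -(3 * x)) / (γ + γ) with hm
  have hm' : m * (2 * γ) = 3 * α ^ 2 - 3 * x := by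
    rw [hm, ← two_mul]
    rw [← two_mul] at h4
    field_simp
    ring
  have h5 : (m * (2 * γ)) ^ 2 = (3 * α ^ 2 - 3 * x) ^ 2 := by rw [hm']
  linear_combination h5 - 8 * α * hE

/-- A point of order five and its double. -/
lemma exists_alpha_beta {H : AddSubgroup ((curve x y)⁄QQ).Point} (hH : Nat.card H = 5)
    (hG : ∀ σ : QQ ≃ₐ[ℚ] QQ, ∀ P ∈ H, Affine.Point.map (W' := curve x y) (σ : QQ →ₐ[ℚ] QQ) P ∈ H) :
    ∃ α β : QQ, α ≠ β ∧
      4 * β * (α ^ 3 - 3 * x * α + 2 * y) = α ^ 4 + 6 * x * α ^ 2 - 16 * y * α + 9 * x ^ 2 ∧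
      4 * α * (β ^ 3 - 3 * x * β + 2 * y) = β ^ 4 + 6 * x * β ^ 2 - 16 * y * β + 9 * x ^ 2 ∧
      ∀ σ : QQ ≃ₐ[ℚ] QQ, (σ α = α ∧ σ β = β) ∨ (σ α = β ∧ σ β = α) := by
  have hfin : Finite H := Nat.finite_of_card_ne_zero (by rw [hH]; norm_num)
  have h5 : ∀ P ∈ H, (5 : ℕ) • P = 0 := by
    intro P hP
    have h := card_nsmul_eq_zero' (x := (⟨P, hP⟩ : H))
    rw [hH] at h
    have := congrArg (Subtype.val) h
    simpa using this
  have hnt : ∃ P ∈ H, P ≠ 0 := by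
    by_contra hcon
    push Not at hcon
    have : Subsingleton H := ⟨fun a b => Subtype.ext (by rw [hcon a a.2, hcon b b.2])⟩
    have h1 := Nat.card_of_subsingleton (0 : H)
    omega
  obtain ⟨P, hPH, hP0⟩ := hnt
  have hP5 : (5 : ℕ) • P = 0 := h5 P hPH
  -- all elements
  have hall : ∀ Q ∈ H, Q = 0 ∨ Q = P ∨ Q = P + P ∨ Q = -(P + P) ∨ Q = -P := by
    have hprime : Fact (Nat.Prime (Nat.card H)) := ⟨by rw [hH]; norm_num⟩
    intro Q hQ
    have h1 := mem_zmultiples_of_prime_card (G := H) rfl (g := ⟨P, hPH⟩) (g' := ⟨Q, hQ⟩)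
      (by intro h; exact hP0 (congrArg Subtype.val h))
    rw [AddSubgroup.mem_zmultiples_iff] at h1
    obtain ⟨n, hn⟩ := h1
    have hn' : n • P = Q := by
      have := congrArg Subtype.val hn
      simpa using this
    have h6 : (n % 5) • P = Q := by
      rw [← hn']
      conv_rhs => rw [← Int.emod_add_mul_ediv n 5]
      have h9 : ((5 : ℤ)) • P = 0 := by
        have : ((5 : ℤ)) • P = (5 : ℕ) • P := by norm_cast
        rw [this, hP5]
      rw [add_zsmul, mul_comm (5 : ℤ), mul_zsmul, h9, zsmul_zero, add_zero]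
    have h7 : 0 ≤ n % 5 := Int.emod_nonneg _ (by norm_num)
    have h8 : n % 5 < 5 := Int.emod_lt_of_pos _ (by norm_num)
    have h9 : (5 : ℤ) • P = 0 := by
      have : ((5 : ℤ)) • P = (5 : ℕ) • P := by norm_cast
      rw [this, hP5]
    generalize n % 5 = r at h6 h7 h8
    interval_cases r
    · left; rw [← h6]; simp
    · right; left; rw [← h6]; simp
    · right; right; left; rw [← h6, two_zsmul]
    · right; right; right; left
      rw [← h6, eq_neg_iff_add_eq_zero, ← h9]; module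
    · right; right; right; right
      rw [← h6, eq_neg_iff_add_eq_zero, ← h9]; module
  -- coordinates
  have h2P : P + P ≠ 0 := by
    intro h
    apply hP0
    have : (5 : ℕ) • P = (P + P) + (P + P) + P := by module
    rw [this, h] at hP5
    simpa using hP5
  rcases hPc : P with _ | ⟨α, γ, hα⟩
  · exact absurd hPc hP0
  rcases hQc : P + P with _ | ⟨β, δ, hβ⟩
  · exact absurd hQc h2P
  have h44 : (P + P) + (P + P) = -P := by
    rw [eq_neg_iff_add_eq_zero, ← hP5]; module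
  have hd1 := double_x (x := x) (y := y) hα hβ (by rw [← hPc, ← hQc])
  have hd2 : 4 * α * (β ^ 3 - 3 * x * β + 2 * y) = β ^ 4 + 6 * x * β ^ 2 - 16 * y * β + 9 * x ^ 2 := by
    rw [hQc, hPc, Affine.Point.neg_some] at h44
    exact double_x hβ _ h44
  have hne : α ≠ β := by
    intro h
    have h1 := Affine.Point.X_eq_iff (h₁ := hα) (h₂ := hβ) |>.mp h
    rw [← hPc, ← hQc] at h1
    rcases h1 with h1 | h1
    · apply hP0
      have h2 : P + 0 = P + P := by rw [add_zero]; exact h1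
      exact (add_left_cancel h2).symm
    · have h3 : P + (P + P) = 0 := by
        nth_rewrite 1 [h1]; simp
      have h4 : (5 : ℕ) • P = (P + (P + P)) + (P + P) := by module
      rw [h4, h3, zero_add] at hP5
      exact h2P hP5
  refine ⟨α, β, hne, hd1, hd2, ?_⟩
  intro σ
  have hσP := hG σ P hPH
  have hσ2 : Affine.Point.map (W' := curve x y) (σ : QQ →ₐ[ℚ] QQ) (P + P) =
      Affine.Point.map (W' := curve x y) (σ : QQ →ₐ[ℚ] QQ) P +
      Affine.Point.map (W' := curve x y) (σ : QQ →ₐ[ℚ] QQ) P := map_add _ _ _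
  have hx1 : Affine.Point.map (W' := curve x y) (σ : QQ →ₐ[ℚ] QQ) P =
      Affine.Point.map (W' := curve x y) (σ : QQ →ₐ[ℚ] QQ) (Affine.Point.some α γ hα) := by rw [hPc]
  have hx2 : Affine.Point.map (W' := curve x y) (σ : QQ →ₐ[ℚ] QQ) (P + P) =
      Affine.Point.map (W' := curve x y) (σ : QQ →ₐ[ℚ] QQ) (Affine.Point.some β δ hβ) := by rw [hQc]
  rw [Affine.Point.map_some] at hx1 hx2
  -- x-coordinates
  have hxr1 : (Affine.Point.map (W' := curve x y) (σ : QQ →ₐ[ℚ] QQ) P).xRep = ![σ α, 1] := by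
    rw [hx1]; rfl
  have hxr2 : (Affine.Point.map (W' := curve x y) (σ : QQ →ₐ[ℚ] QQ) (P + P)).xRep = ![σ β, 1] := by
    rw [hx2]; rfl
  have hxP : P.xRep = ![α, 1] := by rw [hPc]; rfl
  have hxQ : (P + P).xRep = ![β, 1] := by rw [hQc]; rfl
  have hx4 : ((P + P) + (P + P)).xRep = ![α, 1] := by rw [h44, Affine.Point.xRep_neg, hxP]
  have hinj : ∀ a b : QQ, (![a, 1] : Fin 2 → QQ) = ![b, 1] → a = b := by
    intro a b h
    have := congrFun h 0
    simpa using this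
  rw [hσ2] at hxr2
  rcases hall _ hσP with h | h | h | h | h
  · exfalso
    rw [h] at hxr1
    have := congrFun hxr1 1
    simp at this
  · left
    rw [h] at hxr1 hxr2
    exact ⟨hinj _ _ (hxr1.symm.trans hxP), hinj _ _ (hxr2.symm.trans hxQ)⟩
  · right
    rw [h] at hxr1 hxr2
    exact ⟨hinj _ _ (hxr1.symm.trans hxQ), hinj _ _ (hxr2.symm.trans hx4)⟩
  · right
    rw [h] at hxr1 hxr2
    rw [Affine.Point.xRep_neg] at hxr1
    have h4 : -(P + P) + -(P + P) = -((P + P) + (P + P)) := by abel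
    rw [h4, Affine.Point.xRep_neg] at hxr2
    exact ⟨hinj _ _ (hxr1.symm.trans hxQ), hinj _ _ (hxr2.symm.trans hx4)⟩
  · left
    rw [h] at hxr1 hxr2
    rw [Affine.Point.xRep_neg] at hxr1
    have h4 : -P + -P = -(P + P) := by abel
    rw [h4, Affine.Point.xRep_neg] at hxr2
    exact ⟨hinj _ _ (hxr1.symm.trans hxP), hinj _ _ (hxr2.symm.trans hxQ)⟩

/-- The parametrisation by `X_0(5)`. -/
lemma exists_param (h : HasRationalSubgroup (curve x y) 5) :
    ∃ σ w : ℚ, (x : ℚ) * (4 * w ^ 2 + 1) = σ ^ 2 * (w ^ 2 - 3 * w + 1) ∧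
      8 * (y : ℚ) * (4 * w ^ 2 + 1) = σ ^ 3 * (4 * w ^ 2 - 18 * w + 19) := by
  obtain ⟨H, hH, hG⟩ := h
  obtain ⟨α, β, hne, h1, h2, hσ⟩ := exists_alpha_beta hH hG
  have : IsGalois ℚ QQ := isGalois_QQ
  obtain ⟨s, hs⟩ : α + β ∈ Set.range (algebraMap ℚ QQ) := by
    rw [InfiniteGalois.mem_range_algebraMap_iff_fixed]
    intro τ
    rw [map_add]
    rcases hσ τ with ⟨h3, h4⟩ | ⟨h3, h4⟩ <;> rw [h3, h4]
    ring
  obtain ⟨p, hp⟩ : α * β ∈ Set.range (algebraMap ℚ QQ) := by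
    rw [InfiniteGalois.mem_range_algebraMap_iff_fixed]
    intro τ
    rw [map_mul]
    rcases hσ τ with ⟨h3, h4⟩ | ⟨h3, h4⟩ <;> rw [h3, h4]
    ring
  have hsub : α - β ≠ 0 := sub_ne_zero.mpr hne
  -- the two relations
  have hA : (8 * (y : QQ)) = (α + β) * ((α + β) ^ 2 - 6 * (α * β) + 6 * x) := by
    have h3 : (α - β) * (8 * (y : QQ)) = (α - β) * ((α + β) * ((α + β) ^ 2 - 6 * (α * β) + 6 * x)) := by
      linear_combination h1 - h2
    exact mul_left_cancel₀ hsub h3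
  have hB : (-3 * (x : QQ) + (α + β) ^ 2 - α * β) ^ 2 =
      ((α + β) ^ 2 - 4 * (α * β)) * (2 * ((α + β) ^ 2 - 4 * (α * β)) + 9 * (α * β)) := by
    linear_combination (-1 / 2 : QQ) * (h1 + h2) + (3 / 2 : QQ) * (α + β) * hA
  rw [← hs, ← hp] at hA hB
  have hAq : (8 * (y : ℚ)) = s * (s ^ 2 - 6 * p + 6 * x) := by
    apply (algebraMap ℚ QQ).injective
    simpa using hA
  have hBq : (-3 * (x : ℚ) + s ^ 2 - p) ^ 2 = (s ^ 2 - 4 * p) * (2 * (s ^ 2 - 4 * p) + 9 * p) := by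
    apply (algebraMap ℚ QQ).injective
    simpa using hB
  have hδ : s ^ 2 - 4 * p ≠ 0 := by
    intro h0
    apply hsub
    have h3 : (α - β) ^ 2 = 0 := by
      have h4 : (α - β) ^ 2 = (α + β) ^ 2 - 4 * (α * β) := by ring
      rw [h4, ← hs, ← hp]
      have := congrArg (algebraMap ℚ QQ) h0
      simpa using this
    exact pow_eq_zero_iff (two_ne_zero) |>.mp h3
  set δ : ℚ := s ^ 2 - 4 * p with hδd
  refine ⟨s, (-3 * (x : ℚ) + s ^ 2 - p) / δ, ?_⟩
  set w : ℚ := (-3 * (x : ℚ) + s ^ 2 - p) / δ with hw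
  have hwδ : w * δ = -3 * (x : ℚ) + s ^ 2 - p := by rw [hw]; field_simp
  have h9p : 9 * p = (w ^ 2 - 2) * δ := by
    have h3 : δ * (9 * p) = δ * ((w ^ 2 - 2) * δ) := by
      have : (w * δ) ^ 2 = δ * (2 * δ + 9 * p) := by rw [hwδ]; exact hBq
      linear_combination -this
    exact mul_left_cancel₀ hδ h3
  have h9s : 9 * s ^ 2 = δ * (4 * w ^ 2 + 1) := by
    linear_combination (-9 : ℚ) * hδd + 4 * h9p
  have hx9 : 9 * (x : ℚ) = δ * (w ^ 2 - 3 * w + 1) := by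
    linear_combination 3 * hwδ + (1 / 3 : ℚ) * h9p * (-1) + (1/3 : ℚ) * h9s
  constructor
  · linear_combination (1 / 9 : ℚ) * (4 * w ^ 2 + 1) * hx9 - (1 / 9 : ℚ) * (w ^ 2 - 3 * w + 1) * h9s
  · have h72 : 72 * (y : ℚ) = s * δ * (4 * w ^ 2 - 18 * w + 19) := by
      linear_combination 9 * hAq + s * h9s - 6 * s * h9p + 6 * s * hx9
    linear_combination (1 / 9 : ℚ) * (4 * w ^ 2 + 1) * h72 - (1 / 9 : ℚ) * s * (4 * w ^ 2 - 18 * w + 19) * h9s
end

end Pool.Agent.H19.FI
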