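import Mathlib

/-!
# Integral points of Mordell curves parametrised by the curve `X_0(5)`
-/

namespace Pool.Agent.H19.FI

/-- An integer multiple which is not zero is at least one. -/
lemma one_le_abs_of_int {q : ℚ} (n : ℤ) (h : q = n) (hq : q ≠ 0) : 1 ≤ |q| := by
  rw [h] at hq ⊢
  have : n ≠ 0 := by exact_mod_cast hq
  exact_mod_cast Int.one_le_abs this

/-- The basic bound: `x = D (s² + 10 s t + 5 t²)`, `k = - 1728 D³ s t⁵` with coprime integers `s`, `t`. -/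
lemma bound_of_forms {x k s t : ℤ} {D : ℚ} (hk : k ≠ 0) (hst : IsCoprime s t)
    (hx : (x : ℚ) = D * (s ^ 2 + 10 * s * t + 5 * t ^ 2))
    (hkD : (k : ℚ) = -1728 * D ^ 3 * s * t ^ 5) :
    |x| ≤ 4167 * k ^ 2 := by
  have hkq : (k : ℚ) ≠ 0 := by exact_mod_cast hk
  have hD : D ≠ 0 := by rintro rfl; apply hkq; rw [hkD]; ring
  have hs : s ≠ 0 := by rintro rfl; apply hkq; rw [hkD]; push_cast; ring
  have ht : t ≠ 0 := by rintro rfl; apply hkq; rw [hkD]; push_cast; ring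
  -- the denominator of `D ^ 3`
  have hX : IsCoprime (s ^ 2 + 10 * s * t + 5 * t ^ 2) t := by
    have h1 : IsCoprime (s ^ 2) t := hst.pow_left
    have h2 := h1.add_mul_left_left (10 * s + 5 * t)
    have e : s ^ 2 + 10 * s * t + 5 * t ^ 2 = s ^ 2 + t * (10 * s + 5 * t) := by ring
    rw [e]
    exact h2
  have hX3 : IsCoprime ((s ^ 2 + 10 * s * t + 5 * t ^ 2) ^ 3) (t ^ 5) := hX.pow
  obtain ⟨u, v, huv⟩ := hX3
  have hsD : ∃ c : ℤ, 1728 * D ^ 3 * s = c := by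
    refine ⟨1728 * s * u * x ^ 3 - v * k, ?_⟩
    have huvq : (u : ℚ) * (s ^ 2 + 10 * s * t + 5 * t ^ 2) ^ 3 + v * t ^ 5 = 1 := by exact_mod_cast huv
    push_cast
    rw [hx, hkD]
    linear_combination (-1728 * D ^ 3 * s) * huvq
  obtain ⟨c, hc⟩ := hsD
  have htD : ∃ e : ℤ, 216000 * D ^ 3 * (t ^ 6) = e := by
    refine ⟨1728 * x ^ 3 - c * ((s + 10 * t) ^ 3 * s ^ 2 + 15 * (s + 10 * t) ^ 2 * s * t ^ 2
      + 75 * (s + 10 * t) * t ^ 4), ?_⟩
    push_cast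
    rw [hx, ← hc]
    ring
  obtain ⟨e, he⟩ := htD
  have hst6 : IsCoprime s (t ^ 6) := hst.pow_right
  obtain ⟨a, b, hab⟩ := hst6
  have hDD : 216000 * D ^ 3 = ((125 * a * c + b * e : ℤ) : ℚ) := by
    have habq : (a : ℚ) * s + b * t ^ 6 = 1 := by exact_mod_cast hab
    push_cast
    rw [← hc, ← he]
    linear_combination (-216000 * D ^ 3) * habq
  have h1 : 1 ≤ |216000 * D ^ 3| := one_le_abs_of_int _ hDD (by positivity)
  have h60 : 1 ≤ 60 * |D| := by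
    have h2 : |216000 * D ^ 3| = (60 * |D|) ^ 3 := by
      rw [abs_mul, abs_pow, mul_pow]; norm_num
    rw [h2] at h1
    by_contra hlt
    push Not at hlt
    have : (60 * |D|) ^ 3 < 1 := pow_lt_one₀ (by positivity) hlt (by norm_num)
    linarith
  -- the sizes
  have hs1 : (1 : ℚ) ≤ (s : ℚ) ^ 2 := by
    have : 1 ≤ s ^ 2 := by have := sq_nonneg s; have := pow_ne_zero 2 hs; omega
    exact_mod_cast this
  have ht1 : (1 : ℚ) ≤ (t : ℚ) ^ 2 := by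
    have : 1 ≤ t ^ 2 := by have := sq_nonneg t; have := pow_ne_zero 2 ht; omega
    exact_mod_cast this
  have hM : |(s : ℚ) ^ 2 + 10 * s * t + 5 * t ^ 2| ≤ 16 * ((s : ℚ) ^ 2 * t ^ 10) := by
    have h3 : (s : ℚ) ^ 2 ≤ s ^ 2 * t ^ 10 := by
      have : (1 : ℚ) ≤ t ^ 10 := by
        calc (1 : ℚ) = 1 ^ 5 := by norm_num
          _ ≤ ((t : ℚ) ^ 2) ^ 5 := pow_le_pow_left₀ (by norm_num) ht1 5
          _ = t ^ 10 := by ring
      nlinarith
    have h4 : (t : ℚ) ^ 2 ≤ s ^ 2 * t ^ 10 := by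
      have h5 : (t : ℚ) ^ 2 ≤ t ^ 10 := by
        have : (1 : ℚ) ≤ t ^ 8 := by
          calc (1 : ℚ) = 1 ^ 4 := by norm_num
            _ ≤ ((t : ℚ) ^ 2) ^ 4 := pow_le_pow_left₀ (by norm_num) ht1 4
            _ = t ^ 8 := by ring
        nlinarith [sq_nonneg (t : ℚ)]
      have : (0 : ℚ) ≤ t ^ 10 := by positivity
      nlinarith
    rw [abs_le]
    constructor
    · nlinarith [sq_nonneg ((s : ℚ) + t), sq_nonneg ((s : ℚ) - t)]
    · nlinarith [sq_nonneg ((s : ℚ) + t), sq_nonneg ((s : ℚ) - t)]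
  have hxq : |(x : ℚ)| ≤ |D| * (16 * ((s : ℚ) ^ 2 * t ^ 10)) := by
    rw [hx, abs_mul]
    exact mul_le_mul_of_nonneg_left hM (abs_nonneg _)
  have hk2 : (k : ℚ) ^ 2 = 1728 ^ 2 * |D| ^ 6 * ((s : ℚ) ^ 2 * t ^ 10) := by
    have : |D| ^ 6 = D ^ 6 := by
      rw [← abs_pow, abs_of_nonneg (by positivity)]
    rw [hkD, this]; ring
  have hfin : |(x : ℚ)| ≤ 4167 * (k : ℚ) ^ 2 := by
    refine hxq.trans ?_
    rw [hk2]
    have hP : (0 : ℚ) ≤ (s : ℚ) ^ 2 * t ^ 10 := by positivity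
    have h5 : (1 : ℚ) ≤ (60 * |D|) ^ 5 := one_le_pow₀ h60
    have h6 : |D| * 16 ≤ 4167 * (1728 ^ 2 * |D| ^ 6) := by
      have hDp : 0 < |D| := abs_pos.mpr hD
      have : 16 ≤ 4167 * (1728 ^ 2 * |D| ^ 5) := by
        have h7 : (60 * |D|) ^ 5 = 777600000 * |D| ^ 5 := by ring
        rw [h7] at h5
        nlinarith
      calc |D| * 16 ≤ |D| * (4167 * (1728 ^ 2 * |D| ^ 5)) := mul_le_mul_of_nonneg_left this hDp.le
        _ = 4167 * (1728 ^ 2 * |D| ^ 6) := by ring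
    calc |D| * (16 * ((s : ℚ) ^ 2 * t ^ 10)) = (|D| * 16) * ((s : ℚ) ^ 2 * t ^ 10) := by ring
      _ ≤ (4167 * (1728 ^ 2 * |D| ^ 6)) * ((s : ℚ) ^ 2 * t ^ 10) := mul_le_mul_of_nonneg_right h6 hP
      _ = _ := by ring
  exact_mod_cast hfin

/-- The bound in terms of the parameters `w` and `σ`. -/
lemma bound_of_param {x y k : ℤ} {σ w : ℚ} (hk : k ≠ 0) (hxy : y ^ 2 = x ^ 3 + k)
    (hx : (x : ℚ) * (4 * w ^ 2 + 1) = σ ^ 2 * (w ^ 2 - 3 * w + 1))
    (hy : 8 * (y : ℚ) * (4 * w ^ 2 + 1) = σ ^ 3 * (4 * w ^ 2 - 18 * w + 19)) :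
    |x| ≤ 4167 * k ^ 2 := by
  set h : ℚ := 4 * w - 11 with hh
  have hden : (h.den : ℚ) ≠ 0 := by exact_mod_cast h.den_ne_zero
  have hw : w = (h + 11) / 4 := by rw [hh]; ring
  have hq : (0 : ℚ) < 4 * w ^ 2 + 1 := by positivity
  have hnum : h = h.num / h.den := (Rat.num_div_den h).symm
  set s : ℤ := h.num with hs
  set t : ℤ := (h.den : ℤ) with ht
  have htq : (t : ℚ) = h.den := by rw [ht]; push_cast; rfl
  have hst : IsCoprime s t := by
    rw [hs, ht]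
    have := h.reduced
    rw [Int.isCoprime_iff_gcd_eq_one]
    simpa [Int.gcd, Nat.Coprime] using this
  have ht0 : (t : ℚ) ≠ 0 := by rw [htq]; exact hden
  have hhst : h = s / t := by rw [htq]; exact hnum
  -- D
  set D : ℚ := σ ^ 2 / (16 * (4 * w ^ 2 + 1) * t ^ 2) with hD
  have hX : (x : ℚ) = σ ^ 2 * (w ^ 2 - 3 * w + 1) / (4 * w ^ 2 + 1) := by
    field_simp; linarith
  have hY : (y : ℚ) = σ ^ 3 * (4 * w ^ 2 - 18 * w + 19) / (8 * (4 * w ^ 2 + 1)) := by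
    field_simp; linarith
  have hw' : w = ((s : ℚ) / t + 11) / 4 := by rw [hw, hhst]
  refine bound_of_forms (s := s) (t := t) (D := D) hk hst ?_ ?_
  · rw [hX, hD]
    have h1 : w ^ 2 - 3 * w + 1 = ((s : ℚ) ^ 2 + 10 * s * t + 5 * t ^ 2) / (16 * t ^ 2) := by
      rw [hw']; field_simp; ring
    rw [h1]; field_simp
  · have hkq : (k : ℚ) = (y : ℚ) ^ 2 - (x : ℚ) ^ 3 := by
      have : (y : ℚ) ^ 2 = (x : ℚ) ^ 3 + k := by exact_mod_cast hxy
      linarith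
    have h2 : (s : ℚ) = t * (4 * w - 11) := by
      rw [hw']; field_simp; ring
    rw [hkq, hX, hY, hD, h2]
    field_simp
    ring

end Pool.Agent.H19.FI
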